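import Pool.Agent.N71.RP.Stm
import Pool.Agent.H38R2.CG.KR
import Pool.Agent.H38R2.CG.N2
import Pool.Agent.Helper919.NonRes

/-!
# Project RP, part CHR: the characters of fundamental discriminants and of products of two of them
-/

set_option autoImplicit false

namespace Pool.Agent.N655.RP

open Finset Pool.Agent.H38R2.CG Pool.Agent.N71.RP

theorem psum0 {q : ℕ} (f : ℕ → ℂ) (hper : ∀ n, f (q + n) = f n)
    (h0 : ∑ n ∈ Finset.range q, f n = 0) (hb : ∀ n, ‖f n‖ ≤ 1) (hq : 0 < q) :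
    ∀ t : ℕ, ‖∑ n ∈ Finset.range t, f n‖ ≤ q := by
  intro t
  induction t using Nat.strong_induction_on with
  | _ t ih =>
    rcases lt_or_ge t q with h | h
    · calc ‖∑ n ∈ Finset.range t, f n‖ ≤ ∑ n ∈ Finset.range t, ‖f n‖ := norm_sum_le _ _
        _ ≤ ∑ n ∈ Finset.range t, (1 : ℝ) := Finset.sum_le_sum fun n _ => hb n
        _ = t := by simp
        _ ≤ q := by exact_mod_cast h.le
    · obtain ⟨s, rfl⟩ : ∃ s, t = q + s := ⟨t - q, by omega⟩
      rw [Finset.sum_range_add f q s, h0, zero_add, Finset.sum_congr rfl fun n _ => hper n]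
      exact ih s (by omega)

theorem psum {q : ℕ} (hq : 1 < q) (χ : DirichletCharacter ℂ q) (hχ : χ ≠ 1) (f : ℕ → ℝ)
    (hf : ∀ n : ℕ, 1 ≤ n → χ (n : ZMod q) = (f n : ℂ)) (t : ℕ) :
    |∑ n ∈ Finset.Icc 1 t, f n| ≤ q := by
  have : NeZero q := ⟨by omega⟩
  have : Fact (1 < q) := ⟨hq⟩
  have h0 : ∑ n ∈ Finset.range q, χ (n : ZMod q) = 0 := by
    rw [← MulChar.sum_eq_zero_of_ne_one hχ]
    refine Finset.sum_nbij' (fun n : ℕ => (n : ZMod q)) (fun a : ZMod q => a.val) ?_ ?_ ?_ ?_ ?_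
    · intro n _; exact Finset.mem_univ _
    · intro a _; exact Finset.mem_range.2 (ZMod.val_lt a)
    · intro n hn
      rw [Finset.mem_range] at hn
      exact ZMod.val_cast_of_lt hn
    · intro a _
      exact ZMod.natCast_zmod_val a
    · intro n _; rfl
  have h1 := psum0 (q := q) (fun n : ℕ => χ (n : ZMod q)) (fun n => by
    show χ ((q + n : ℕ) : ZMod q) = χ (n : ZMod q)
    rw [Nat.cast_add, ZMod.natCast_self, zero_add]) h0
    (fun n => DirichletCharacter.norm_le_one χ _) (by omega) (t + 1)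
  rw [Finset.sum_range_succ'] at h1
  have h2 : χ ((0 : ℕ) : ZMod q) = 0 := by
    rw [Nat.cast_zero]
    exact MulChar.map_zero χ
  rw [h2, add_zero] at h1
  have h3 : ((∑ n ∈ Finset.Icc 1 t, f n : ℝ) : ℂ) = ∑ n ∈ Finset.range t, χ ((n + 1 : ℕ) : ZMod q) := by
    rw [Complex.ofReal_sum, Finset.range_eq_Ico, Finset.sum_Ico_add' (fun n : ℕ => χ (n : ZMod q)) 0 t 1]
    refine Finset.sum_congr ?_ ?_
    · ext n
      simp only [Finset.mem_Icc, Finset.mem_Ico]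
      omega
    · intro n hn
      rw [Finset.mem_Ico] at hn
      exact (hf n (by omega)).symm
  rw [← Real.norm_eq_abs, ← Complex.norm_real, h3]
  exact h1

theorem mk {q X : ℕ} (hq : 1 < q) (hqX : q ≤ X ^ 2) (χ : DirichletCharacter ℂ q) (hχ : χ ≠ 1)
    (g : ℕ → ℤ) (hg1 : g 1 = 1) (hgm : ∀ a b : ℕ, a ≠ 0 → b ≠ 0 → g (a * b) = g a * g b)
    (hgb : ∀ n, |g n| ≤ 1) (hgχ : ∀ n : ℕ, 1 ≤ n → χ (n : ZMod q) = (g n : ℂ)) :
    Chr (fun n => (g n : ℝ)) ((X : ℝ) ^ 2) where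
  one := by rw [hg1, Int.cast_one]
  mul := fun a b ha hb => by
    show ((g (a * b) : ℤ) : ℝ) = (g a : ℝ) * (g b : ℝ)
    rw [hgm a b ha hb, Int.cast_mul]
  val := fun n => by
    show (g n : ℝ) = 0 ∨ (g n : ℝ) = 1 ∨ (g n : ℝ) = -1
    obtain ⟨h1, h2⟩ := abs_le.1 (hgb n)
    rcases (by omega : g n = 0 ∨ g n = 1 ∨ g n = -1) with h | h | h
    · left; rw [h, Int.cast_zero]
    · right; left; rw [h, Int.cast_one]
    · right; right; rw [h, Int.cast_neg, Int.cast_one]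
  sum := fun t => by
    have h1 := psum hq χ hχ (fun n => (g n : ℝ)) (fun n hn => by rw [hgχ n hn]; push_cast; rfl) t
    have h2 : (q : ℝ) ≤ (X : ℝ) ^ 2 := by exact_mod_cast hqX
    exact h1.trans h2

theorem chi_abs (D : ℤ) (n : ℕ) : |chi D n| ≤ 1 := by
  unfold chi
  rw [abs_mul, abs_pow]
  have h1 : |chi2 D| ≤ 1 := by
    unfold chi2
    split_ifs <;> simp
  have h2 : |jacobiSym D (n / 2 ^ padicValNat 2 n)| ≤ 1 := by
    rcases jacobiSym.trichotomy D (n / 2 ^ padicValNat 2 n) with h | h | h <;> simp [h]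
  calc |chi2 D| ^ padicValNat 2 n * |jacobiSym D (n / 2 ^ padicValNat 2 n)| ≤ 1 * 1 := by
        gcongr
        exact pow_le_one₀ (abs_nonneg _) h1
    _ = 1 := one_mul 1

theorem sqf_eq {a b : ℕ} (ha : Squarefree a) (hb : Squarefree b) (h : IsSquare (a * b)) : a = b := by
  obtain ⟨c, hc⟩ := h
  have ha0 : a ≠ 0 := ha.ne_zero
  have hb0 : b ≠ 0 := hb.ne_zero
  have hc0 : c ≠ 0 := by
    rintro rfl
    exact mul_ne_zero ha0 hb0 (by simpa using hc)
  refine Nat.eq_of_factorization_eq ha0 hb0 fun p => ?_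
  have h1 : (a * b).factorization p = (c * c).factorization p := by rw [hc]
  rw [Nat.factorization_mul ha0 hb0, Nat.factorization_mul hc0 hc0, Finsupp.add_apply,
    Finsupp.add_apply] at h1
  have h2 := (Nat.squarefree_iff_factorization_le_one ha0).1 ha p
  have h3 := (Nat.squarefree_iff_factorization_le_one hb0).1 hb p
  omega

theorem nsq {D₁ D₂ : ℕ} (h1 : IsFund D₁) (h2 : IsFund D₂) (h : D₁ ≠ D₂) : ¬ IsSquare (D₁ * D₂) := by
  have four : ∀ k : ℕ, IsSquare (4 * k) → IsSquare k := by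
    rintro k ⟨c, hc⟩
    have hce : Even c := by
      have h0 : Even (c * c) := by
        rw [← hc]
        exact ⟨2 * k, by ring⟩
      exact (or_self_iff.1 (Nat.even_mul.1 h0))
    obtain ⟨d, rfl⟩ := hce
    exact ⟨d, by nlinarith⟩
  intro hs
  apply h
  obtain ⟨h11, ⟨h12, h13⟩ | ⟨m₁, rfl, h12, h13⟩⟩ := h1 <;>
    obtain ⟨h21, ⟨h22, h23⟩ | ⟨m₂, rfl, h22, h23⟩⟩ := h2
  · exact sqf_eq h13 h23 hs
  · rw [show D₁ * (4 * m₂) = 4 * (D₁ * m₂) by ring] at hs
    have := sqf_eq h13 h23 (four _ hs)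
    omega
  · rw [mul_assoc] at hs
    have := sqf_eq h13 h23 (four _ hs)
    omega
  · rw [show 4 * m₁ * (4 * m₂) = 4 * (4 * (m₁ * m₂)) by ring] at hs
    rw [sqf_eq h13 h23 (four _ (four _ hs))]

theorem t_CHR : E_CHR := by
  intro X D₁ D₂ hF₁ hF₂ hX₁ hX₂ hne
  obtain ⟨χ₁, hχ₁, e₁⟩ := T_KR D₁ hF₁
  obtain ⟨χ₂, hχ₂, e₂⟩ := T_KR D₂ hF₂
  have h1 := hF₁.1
  have h2 := hF₂.1
  have h12 : D₁ * D₂ ≤ X ^ 2 := by
    rw [pow_two]
    exact Nat.mul_le_mul hX₁ hX₂
  constructor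
  · refine mk h1 (le_trans (by nlinarith) h12) χ₁ hχ₁ (chi D₁) (N2h.chi_one _)
      (fun a b ha hb => N2h.chi_mul _ ha hb) (chi_abs _) e₁
  · have hd₁ : D₁ ∣ D₁ * D₂ := dvd_mul_right _ _
    have hd₂ : D₂ ∣ D₁ * D₂ := dvd_mul_left _ _
    have : NeZero (D₁ * D₂) := ⟨mul_ne_zero (by omega) (by omega)⟩
    obtain ⟨χ, hχ⟩ : ∃ χ : DirichletCharacter ℂ (D₁ * D₂),
        χ = DirichletCharacter.changeLevel hd₁ χ₁ * DirichletCharacter.changeLevel hd₂ χ₂ := ⟨_, rfl⟩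
    have hval : ∀ n : ℕ, χ (n : ZMod (D₁ * D₂)) = χ₁ (n : ZMod D₁) * χ₂ (n : ZMod D₂) := by
      intro n
      by_cases hu : IsUnit ((n : ℕ) : ZMod (D₁ * D₂))
      · obtain ⟨u, hu'⟩ := hu
        rw [hχ, MulChar.mul_apply, ← hu', DirichletCharacter.changeLevel_eq_cast_of_dvd _ hd₁ u,
          DirichletCharacter.changeLevel_eq_cast_of_dvd _ hd₂ u, hu', ZMod.cast_natCast hd₁,
          ZMod.cast_natCast hd₂]
      · rw [MulChar.map_nonunit _ hu]
        rw [ZMod.isUnit_iff_coprime] at hu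
        by_cases hc : Nat.Coprime n D₁
        · have hc2 : ¬ Nat.Coprime n D₂ := fun h => hu (Nat.Coprime.mul_right hc h)
          rw [← ZMod.isUnit_iff_coprime] at hc2
          rw [MulChar.map_nonunit χ₂ hc2, mul_zero]
        · rw [← ZMod.isUnit_iff_coprime] at hc
          rw [MulChar.map_nonunit χ₁ hc, zero_mul]
    have hval2 : ∀ n : ℕ, 1 ≤ n →
        χ (n : ZMod (D₁ * D₂)) = ((chi D₁ n * chi D₂ n : ℤ) : ℂ) := by
      intro n hn
      rw [hval, e₁ n hn, e₂ n hn, Int.cast_mul]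
    have hne1 : χ ≠ 1 := by
      intro h
      have hns : ¬ IsSquare (((D₁ * D₂ : ℕ)) : ℤ) := by
        rw [Int.isSquare_natCast_iff]
        exact nsq hF₁ hF₂ hne
      obtain ⟨d, hdo, hd⟩ := Pool.Agent.Helper919.exists_jacobi_neg_one _ hns
      have hd1 : 1 ≤ d := by
        rcases hdo with ⟨k, rfl⟩
        omega
      have h3 := hval2 d hd1
      rw [KRh.chi_odd hdo, KRh.chi_odd hdo, ← jacobiSym.mul_left] at h3
      push_cast at hd
      rw [hd, h] at h3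
      have hu : IsUnit ((d : ℕ) : ZMod (D₁ * D₂)) := by
        by_contra hc
        rw [MulChar.map_nonunit _ hc] at h3
        norm_num at h3
      rw [MulChar.one_apply hu] at h3
      norm_num at h3
    have h3 := mk (X := X) (q := D₁ * D₂) (by nlinarith) h12 χ hne1 (fun n => chi D₁ n * chi D₂ n)
      (by simp only [N2h.chi_one]; norm_num)
      (fun a b ha hb => by simp only [N2h.chi_mul _ ha hb]; ring)
      (fun n => by
        rw [abs_mul]
        exact mul_le_one₀ (chi_abs _ _) (abs_nonneg _) (chi_abs _ _)) hval2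
    have h4 : (fun n => (chi D₁ n : ℝ) * (chi D₂ n : ℝ)) =
        fun n => ((chi D₁ n * chi D₂ n : ℤ) : ℝ) := by
      funext n
      rw [Int.cast_mul]
    rw [h4]
    exact h3

end Pool.Agent.N655.RP
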